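import Pool.Agent.Helper923.HMertens

set_option autoImplicit false

open Finset Filter Topology

namespace Pool.Agent.R852.LK

/-- the odd primes below `y` -/
def PR (y : ℕ) : Finset ℕ := (range y).filter fun p => p.Prime ∧ p ≠ 2

lemma card_PP (δ : ℝ) (hδ : 0 < δ) : ∀ᶠ y : ℕ in atTop,
    (y : ℝ) ^ (1 - δ) ≤ (((Finset.Icc 1 y).filter Nat.Prime).card : ℝ) := by
  obtain ⟨C, hC⟩ := Pool.Agent.Helper923.HMertens.mertens_log
  have tl : Tendsto (fun y : ℕ => Real.log (y : ℝ)) atTop atTop :=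
    Real.tendsto_log_atTop.comp tendsto_natCast_atTop_atTop
  have h4 : ∀ᶠ y : ℕ in atTop, 4 / δ ≤ (y : ℝ) ^ (δ / 2) :=
    tendsto_natCast_atTop_atTop.eventually
      ((tendsto_rpow_atTop (by positivity : (0 : ℝ) < δ / 2)).eventually_ge_atTop _)
  filter_upwards [tl.eventually_ge_atTop (8 * (|C| + 1) / δ), tl.eventually_ge_atTop 1, h4,
    eventually_ge_atTop 2] with y hy hy1 hy4 hy2
  have hy0 : (0 : ℝ) < y := by positivity
  have hyone : (1 : ℝ) ≤ y := by exact_mod_cast (by omega : 1 ≤ y)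
  have hlog0 : 0 < Real.log y := by linarith
  set z : ℝ := (y : ℝ) ^ (1 - δ / 2) with hz
  have hz0 : 0 < z := Real.rpow_pos_of_pos hy0 _
  set K := (((Finset.Icc 1 y).filter Nat.Prime).card : ℝ) with hK
  have hK0 : 0 ≤ K := Nat.cast_nonneg _
  by_cases hz1 : z < 1
  · -- then `δ > 2`, trivial
    have h1 : (y : ℝ) ^ (1 - δ) ≤ z :=
      Real.rpow_le_rpow_of_exponent_le hyone (by linarith)
    have h2 : (1 : ℝ) ≤ K := by
      rw [hK]
      have : 0 < ((Finset.Icc 1 y).filter Nat.Prime).card := by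
        rw [card_pos]
        exact ⟨2, mem_filter.mpr ⟨mem_Icc.mpr ⟨by norm_num, hy2⟩, Nat.prime_two⟩⟩
      exact_mod_cast this
    linarith
  push Not at hz1
  set m := ⌊z⌋₊ with hm
  have hm1 : 1 ≤ m := Nat.one_le_iff_ne_zero.mpr (by
    intro h
    rw [hm, Nat.floor_eq_zero] at h
    linarith)
  have hmz : (m : ℝ) ≤ z := Nat.floor_le hz0.le
  have hzm : z < m + 1 := Nat.lt_floor_add_one z
  have hzy : z ≤ y := by
    calc z ≤ (y : ℝ) ^ (1 : ℝ) := Real.rpow_le_rpow_of_exponent_le hyone (by linarith)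
      _ = y := Real.rpow_one _
  have hmy : m ≤ y := by exact_mod_cast hmz.trans hzy
  have e1 := (abs_le.mp (hC y (by omega))).1
  have e2 := (abs_le.mp (hC m hm1)).2
  have hlm : Real.log m ≤ (1 - δ / 2) * Real.log y := by
    have := Real.log_le_log (by exact_mod_cast hm1) hmz
    rwa [hz, Real.log_rpow hy0] at this
  have hsplit : ∑ p ∈ (Finset.Icc 1 y).filter Nat.Prime, Real.log p / p ≤
      ∑ p ∈ (Finset.Icc 1 m).filter Nat.Prime, Real.log p / p + K * (Real.log y / z) := by
    have hsub : (Finset.Icc 1 m).filter Nat.Prime ⊆ (Finset.Icc 1 y).filter Nat.Prime := by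
      intro p hp
      rw [mem_filter, mem_Icc] at hp ⊢
      exact ⟨⟨hp.1.1, by omega⟩, hp.2⟩
    rw [← sum_sdiff hsub, add_comm]
    apply add_le_add le_rfl
    calc ∑ p ∈ (Finset.Icc 1 y).filter Nat.Prime \ (Finset.Icc 1 m).filter Nat.Prime,
          Real.log p / p
        ≤ ∑ _p ∈ (Finset.Icc 1 y).filter Nat.Prime \ (Finset.Icc 1 m).filter Nat.Prime,
          Real.log y / z := by
          refine sum_le_sum fun p hp => ?_
          rw [Finset.mem_sdiff, mem_filter, mem_filter, mem_Icc, mem_Icc] at hp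
          obtain ⟨⟨⟨h1, h2⟩, h3⟩, h4⟩ := hp
          have h5 : m < p := by
            by_contra h
            exact h4 ⟨⟨h1, by omega⟩, h3⟩
          have h6 : z ≤ p := by
            have : ((m + 1 : ℕ) : ℝ) ≤ p := by exact_mod_cast h5
            push_cast at this
            linarith
          have hp0 : (0 : ℝ) < p := by exact_mod_cast h3.pos
          exact div_le_div₀ hlog0.le (Real.log_le_log hp0 (by exact_mod_cast h2)) hz0 h6
      _ = (((Finset.Icc 1 y).filter Nat.Prime \ (Finset.Icc 1 m).filter Nat.Prime).card : ℝ) *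
          (Real.log y / z) := by rw [sum_const, nsmul_eq_mul]
      _ ≤ K * (Real.log y / z) := by
          apply mul_le_mul_of_nonneg_right _ (by positivity)
          rw [hK]
          exact_mod_cast card_le_card sdiff_subset
  have hCC : C ≤ |C| := le_abs_self C
  have hkey : δ / 4 * Real.log y ≤ K * (Real.log y / z) := by
    have h1 : 8 * (|C| + 1) ≤ Real.log y * δ := by
      rwa [div_le_iff₀ hδ] at hy
    nlinarith
  have h2 : δ / 4 * z ≤ K := by
    have h3 : δ / 4 * Real.log y * z ≤ K * Real.log y := by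
      have := mul_le_mul_of_nonneg_right hkey hz0.le
      have e : K * (Real.log y / z) * z = K * Real.log y := by field_simp
      linarith
    have h4 : δ / 4 * z * Real.log y ≤ K * Real.log y := by linarith
    exact le_of_mul_le_mul_right h4 hlog0
  have h5 : (y : ℝ) ^ (1 - δ) * (y : ℝ) ^ (δ / 2) = z := by
    rw [hz, ← Real.rpow_add hy0]; congr 1; ring
  have h6 : (y : ℝ) ^ (1 - δ) * (4 / δ) ≤ z := by
    rw [← h5]
    exact mul_le_mul_of_nonneg_left hy4 (Real.rpow_nonneg hy0.le _)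
  calc (y : ℝ) ^ (1 - δ) = δ / 4 * ((y : ℝ) ^ (1 - δ) * (4 / δ)) := by field_simp
    _ ≤ δ / 4 * z := mul_le_mul_of_nonneg_left h6 (by positivity)
    _ ≤ K := h2

lemma card_PR (δ : ℝ) (hδ : 0 < δ) (hδ1 : δ < 1) : ∀ᶠ y : ℕ in atTop,
    (y : ℝ) ^ (1 - δ) ≤ ((PR y).card : ℝ) := by
  have h4 : ∀ᶠ y : ℕ in atTop, (3 : ℝ) ≤ (y : ℝ) ^ (δ / 2) :=
    tendsto_natCast_atTop_atTop.eventually
      ((tendsto_rpow_atTop (by positivity : (0 : ℝ) < δ / 2)).eventually_ge_atTop _)
  filter_upwards [card_PP (δ / 2) (by positivity), h4, eventually_ge_atTop 1] with y h1 h2 h3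
  have hy0 : (0 : ℝ) < y := by exact_mod_cast h3
  have hy1 : (1 : ℝ) ≤ y := by exact_mod_cast h3
  have hc : ((Finset.Icc 1 y).filter Nat.Prime).card ≤ (PR y).card + 2 := by
    have hsub : (Finset.Icc 1 y).filter Nat.Prime ⊆ PR y ∪ {2, y} := by
      intro p hp
      rw [mem_filter, mem_Icc] at hp
      rw [mem_union, PR, mem_filter, mem_range, mem_insert, mem_singleton]
      by_cases h : p = 2
      · right; left; exact h
      · by_cases h' : p = y
        · right; right; exact h'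
        · left; exact ⟨by omega, hp.2, h⟩
    refine (card_le_card hsub).trans ((card_union_le _ _).trans ?_)
    exact Nat.add_le_add_left card_le_two _
  have hc' : (((Finset.Icc 1 y).filter Nat.Prime).card : ℝ) ≤ (PR y).card + 2 := by
    exact_mod_cast hc
  have e : (y : ℝ) ^ (1 - δ / 2) = (y : ℝ) ^ (1 - δ) * (y : ℝ) ^ (δ / 2) := by
    rw [← Real.rpow_add hy0]; congr 1; ring
  have h5 : 1 ≤ (y : ℝ) ^ (1 - δ) := Real.one_le_rpow hy1 (by linarith)
  have h6 : (y : ℝ) ^ (1 - δ) * 3 ≤ (y : ℝ) ^ (1 - δ / 2) := by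
    rw [e]
    exact mul_le_mul_of_nonneg_left h2 (by linarith)
  linarith

end Pool.Agent.R852.LK
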