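import Pool.Agent.R852.LK.Per
import Pool.Agent.R852.LK.Cnt

set_option autoImplicit false

open Finset Filter Topology

namespace Pool.Agent.R852.LK

/-- the number of tuples of primes with a given product -/
lemma fiber (B : ℕ) (Q : Finset ℕ) (hQ : ∀ p ∈ Q, p.Prime) (m : ℕ) :
    ((Fintype.piFinset fun _ : Fin B => Q).filter fun t => ∏ i, t i = m).card ≤ B ^ B := by
  classical
  rcases ((Fintype.piFinset fun _ : Fin B => Q).filter
    fun t => ∏ i, t i = m).eq_empty_or_nonempty with h | ⟨t₀, ht₀⟩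
  · rw [h, card_empty]; exact Nat.zero_le _
  · rw [mem_filter, Fintype.mem_piFinset] at ht₀
    have hsub : ((Fintype.piFinset fun _ : Fin B => Q).filter fun t => ∏ i, t i = m) ⊆
        Fintype.piFinset fun _ : Fin B => (univ.image t₀) := by
      intro t ht
      rw [mem_filter, Fintype.mem_piFinset] at ht
      rw [Fintype.mem_piFinset]
      intro i
      have h1 : (t i) ∣ ∏ j, t₀ j := by
        rw [ht₀.2, ← ht.2]; exact dvd_prod_of_mem t (mem_univ i)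
      obtain ⟨j, _, hj⟩ := (Prime.dvd_finset_prod_iff (hQ _ (ht.1 i)).prime _).mp h1
      have h2 : t i = t₀ j :=
        (Nat.prime_dvd_prime_iff_eq (hQ _ (ht.1 i)) (hQ _ (ht₀.1 j))).mp hj
      rw [h2]; exact mem_image_of_mem _ (mem_univ j)
    refine (card_le_card hsub).trans ?_
    rw [Fintype.card_piFinset, prod_const, card_univ, Fintype.card_fin]
    exact Nat.pow_le_pow_left (card_image_le.trans (by simp)) _

lemma second (B y : ℕ) (Q : Finset ℕ) (hQ : ∀ p ∈ Q, p.Prime) (hQy : ∀ p ∈ Q, p ≤ y)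
    (h : ℕ → ℝ) (hh : ∀ m, 0 ≤ h m) :
    ∑ t ∈ Fintype.piFinset (fun _ : Fin B => Q), h (∏ i, t i) ≤
      (B : ℝ) ^ B * ∑ m ∈ range (y ^ B + 1), h m := by
  classical
  have hmap : ∀ t ∈ Fintype.piFinset (fun _ : Fin B => Q), (∏ i, t i) ∈ range (y ^ B + 1) := by
    intro t ht
    rw [Fintype.mem_piFinset] at ht
    rw [mem_range, Nat.lt_succ_iff]
    calc ∏ i, t i ≤ ∏ _i : Fin B, y := prod_le_prod' fun i _ => hQy _ (ht i)
      _ = y ^ B := by simp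
  rw [← sum_fiberwise_of_maps_to hmap, mul_sum]
  refine sum_le_sum fun m _ => ?_
  have h1 : ∑ t ∈ (Fintype.piFinset fun _ : Fin B => Q).filter (fun t => ∏ i, t i = m),
      h (∏ i, t i) = (((Fintype.piFinset fun _ : Fin B => Q).filter
        (fun t => ∏ i, t i = m)).card : ℝ) * h m := by
    rw [sum_congr rfl (fun t ht => by rw [(mem_filter.mp ht).2]), sum_const, nsmul_eq_mul]
  rw [h1]
  apply mul_le_mul_of_nonneg_right _ (hh m)
  exact_mod_cast fiber B Q hQ m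

lemma ineq (B y : ℕ) (Q : Finset ℕ) (hQ : ∀ p ∈ Q, p.Prime) (hQy : ∀ p ∈ Q, p ≤ y)
    (F : Finset ℤ) (X : ℝ) (hX0 : 0 ≤ X) (hX : ∀ f ∈ F, f ≠ 0 ∧ |(f : ℝ)| ≤ X)
    (hFF : ∀ f ∈ F, ∀ g ∈ F, f ≠ g → ¬ IsSquare (f * g))
    (hF : ∀ f ∈ F, (Q.card : ℝ) / 2 ≤ ∑ p ∈ Q, (ps f p : ℝ)) :
    ((F.card : ℝ) * ((Q.card : ℝ) / 2) ^ B) ^ 2 ≤
      (Q.card : ℝ) ^ B * ((B : ℝ) ^ B *
        ((F.card : ℝ) * ((y : ℝ) ^ B + 1) + (F.card : ℝ) ^ 2 * (4 * X ^ 2))) := by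
  classical
  set G : ℕ → ℝ := fun m => ∑ f ∈ F, (ps f m : ℝ) with hG
  set T := Fintype.piFinset (fun _ : Fin B => Q) with hT
  have hTc : (T.card : ℝ) = (Q.card : ℝ) ^ B := by
    rw [hT, Fintype.card_piFinset]; simp
  have h1 : (F.card : ℝ) * ((Q.card : ℝ) / 2) ^ B ≤ ∑ t ∈ T, G (∏ i, t i) := by
    have e1 : ∑ t ∈ T, G (∏ i, t i) = ∑ f ∈ F, (∑ p ∈ Q, (ps f p : ℝ)) ^ B := by
      simp only [hG]
      rw [sum_comm]
      refine sum_congr rfl fun f _ => ?_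
      have h := Finset.prod_univ_sum (fun _ : Fin B => Q)
        (fun (_ : Fin B) (p : ℕ) => (ps f p : ℝ))
      rw [prod_const, card_univ, Fintype.card_fin] at h
      rw [h]
      refine sum_congr rfl fun t _ => ?_
      rw [ps_prod]; push_cast; rfl
    rw [e1]
    calc (F.card : ℝ) * ((Q.card : ℝ) / 2) ^ B = ∑ _f ∈ F, ((Q.card : ℝ) / 2) ^ B := by
          rw [sum_const, nsmul_eq_mul]
      _ ≤ _ := sum_le_sum fun f hf => pow_le_pow_left₀ (by positivity) (hF f hf) _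
  have h2 : (∑ t ∈ T, G (∏ i, t i)) ^ 2 ≤ (T.card : ℝ) * ∑ t ∈ T, (G (∏ i, t i)) ^ 2 :=
    sq_sum_le_card_mul_sum_sq
  have h3 := second B y Q hQ hQy (fun m => G m ^ 2) (fun m => sq_nonneg _)
  have h4 : ∑ m ∈ range (y ^ B + 1), G m ^ 2 ≤
      (F.card : ℝ) * ((y : ℝ) ^ B + 1) + (F.card : ℝ) ^ 2 * (4 * X ^ 2) := by
    have e : ∀ m, G m ^ 2 = ∑ f ∈ F, ∑ g ∈ F, (ps (f * g) m : ℝ) := by
      intro m
      simp only [hG]
      rw [sq, sum_mul_sum]
      refine sum_congr rfl fun f _ => sum_congr rfl fun g _ => ?_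
      rw [ps_left]; push_cast; rfl
    simp_rw [e]
    rw [sum_comm]
    have h5 : ∀ f ∈ F, ∑ m ∈ range (y ^ B + 1), ∑ g ∈ F, (ps (f * g) m : ℝ) ≤
        ((y : ℝ) ^ B + 1) + (F.card : ℝ) * (4 * X ^ 2) := by
      intro f hf
      rw [sum_comm]
      have h6 : ∀ g ∈ F, ∑ m ∈ range (y ^ B + 1), (ps (f * g) m : ℝ) ≤
          (if g = f then ((y : ℝ) ^ B + 1) else 0) + 4 * X ^ 2 := by
        intro g hg
        have hX2 : 0 ≤ 4 * X ^ 2 := by positivity
        split_ifs with hfg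
        · have h7 : ∑ m ∈ range (y ^ B + 1), (ps (f * g) m : ℝ) ≤
              ∑ _m ∈ range (y ^ B + 1), (1 : ℝ) :=
            sum_le_sum fun m _ => by
              have := (abs_le.mp (ps_abs (f * g) m)).2
              exact_mod_cast this
          rw [sum_const, card_range, nsmul_eq_mul, mul_one] at h7
          push_cast at h7
          linarith
        · rw [zero_add]
          have hns := hFF f hf g hg (Ne.symm hfg)
          have hb := sum_bound (f * g) (mul_ne_zero (hX f hf).1 (hX g hg).1) hns (y ^ B + 1)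
          have hb' := (abs_le.mp hb).2
          have hb'' : ((∑ m ∈ range (y ^ B + 1), ps (f * g) m : ℤ) : ℝ) ≤
              ((4 * |f * g| : ℤ) : ℝ) := by exact_mod_cast hb'
          push_cast at hb''
          rw [abs_mul] at hb''
          have h8 : |(f : ℝ)| * |(g : ℝ)| ≤ X * X :=
            mul_le_mul (hX f hf).2 (hX g hg).2 (abs_nonneg _) hX0
          nlinarith
      refine (sum_le_sum h6).trans ?_
      rw [sum_add_distrib, sum_ite_eq' , if_pos hf, sum_const, nsmul_eq_mul]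
    refine (sum_le_sum h5).trans ?_
    rw [sum_const, nsmul_eq_mul]
    apply le_of_eq; ring
  have h0 : 0 ≤ (F.card : ℝ) * ((Q.card : ℝ) / 2) ^ B := by positivity
  calc ((F.card : ℝ) * ((Q.card : ℝ) / 2) ^ B) ^ 2 ≤ (∑ t ∈ T, G (∏ i, t i)) ^ 2 :=
        pow_le_pow_left₀ h0 h1 2
    _ ≤ (T.card : ℝ) * ∑ t ∈ T, (G (∏ i, t i)) ^ 2 := h2
    _ ≤ (T.card : ℝ) * ((B : ℝ) ^ B * ∑ m ∈ range (y ^ B + 1), G m ^ 2) :=
        mul_le_mul_of_nonneg_left h3 (Nat.cast_nonneg _)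
    _ ≤ (T.card : ℝ) * ((B : ℝ) ^ B *
        ((F.card : ℝ) * ((y : ℝ) ^ B + 1) + (F.card : ℝ) ^ 2 * (4 * X ^ 2))) := by
        gcongr
    _ = _ := by rw [hTc]

lemma mem_PR {y p : ℕ} : p ∈ PR y ↔ p < y ∧ p.Prime ∧ p ≠ 2 := by
  rw [PR, mem_filter, mem_range]

/-- **Few square classes.** -/
theorem core (A ε : ℝ) (hA : 0 ≤ A) (hε : 0 < ε) : ∀ᶠ y : ℕ in atTop, ∀ F : Finset ℤ,
    (∀ f ∈ F, f ≠ 0 ∧ |(f : ℝ)| ≤ (y : ℝ) ^ A) →
    (∀ f ∈ F, ∀ g ∈ F, f ≠ g → ¬ IsSquare (f * g)) →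
    (∀ f ∈ F, ∀ p ∈ PR y, ¬ (p : ℤ) ∣ f → ps f p = 1) → (F.card : ℝ) ≤ (y : ℝ) ^ ε := by
  set B : ℕ := ⌈2 * A⌉₊ + 2 with hB
  have hBA : 2 * A + 2 ≤ (B : ℝ) := by
    rw [hB]; push_cast
    linarith [Nat.le_ceil (2 * A)]
  have hB2 : (2 : ℝ) ≤ B := by linarith
  set δ : ℝ := min ε 1 / (2 * B) with hδ
  have hm0 : 0 < min ε 1 := lt_min hε one_pos
  have hδ0 : 0 < δ := by positivity
  have hδB : δ * B = min ε 1 / 2 := by rw [hδ]; field_simp
  have hδε : δ * B ≤ ε / 2 := by rw [hδB]; linarith [min_le_left ε 1]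
  have hδh : δ * B ≤ 1 / 2 := by rw [hδB]; linarith [min_le_right ε 1]
  have hδ1 : δ ≤ 1 / 2 := by nlinarith
  set c : ℝ := (4 * B : ℝ) ^ B with hc
  have hc0 : 0 < c := by positivity
  have e1 : ∀ᶠ y : ℕ in atTop, 4 * c ≤ (y : ℝ) ^ (ε / 2) :=
    tendsto_natCast_atTop_atTop.eventually
      ((tendsto_rpow_atTop (by positivity : (0 : ℝ) < ε / 2)).eventually_ge_atTop _)
  have e2 : ∀ᶠ y : ℕ in atTop, 8 * c ≤ (y : ℝ) :=
    tendsto_natCast_atTop_atTop.eventually_ge_atTop _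
  have e3 : ∀ᶠ y : ℕ in atTop, Real.log (y : ℝ) ≤
      (1 / (8 * (A + 1))) * (y : ℝ) ^ (1 / 2 : ℝ) := by
    have h := (isLittleO_log_rpow_atTop (by norm_num : (0 : ℝ) < 1 / 2)).bound
      (by positivity : (0 : ℝ) < 1 / (8 * (A + 1)))
    filter_upwards [tendsto_natCast_atTop_atTop.eventually h, eventually_ge_atTop 1] with y hy hy1
    rw [Real.norm_of_nonneg (Real.log_nonneg (by exact_mod_cast hy1)),
      Real.norm_of_nonneg (by positivity)] at hy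
    exact hy
  filter_upwards [card_PR δ hδ0 (by linarith), e1, e2, e3, eventually_ge_atTop 1]
    with y hK h4c h8c hlog hy1 F hX hFF hps
  have hy0 : (0 : ℝ) < y := by exact_mod_cast hy1
  have hyone : (1 : ℝ) ≤ y := by exact_mod_cast hy1
  set K : ℝ := ((PR y).card : ℝ) with hKdef
  have hKhalf : (y : ℝ) ^ (1 / 2 : ℝ) ≤ K :=
    (Real.rpow_le_rpow_of_exponent_le hyone (by linarith)).trans hK
  have hK0 : 0 < K := lt_of_lt_of_le (Real.rpow_pos_of_pos hy0 _) hK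
  -- few primes divide f
  have hfew : ∀ f ∈ F, K / 2 ≤ ∑ p ∈ PR y, (ps f p : ℝ) := by
    intro f hf
    set D : Finset ℕ := (PR y).filter fun p : ℕ => (p : ℤ) ∣ f with hD
    have hd1 : (∏ p ∈ D, p) ∣ f.natAbs := by
      apply Finset.prod_primes_dvd
      · intro p hp
        exact (mem_PR.mp (mem_filter.mp hp).1).2.1.prime
      · intro p hp
        exact Int.natCast_dvd.mp (mem_filter.mp hp).2
    have hd2 : 2 ^ D.card ≤ f.natAbs := by
      calc 2 ^ D.card = ∏ _p ∈ D, 2 := by rw [prod_const]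
        _ ≤ ∏ p ∈ D, p := prod_le_prod' fun p hp =>
            (mem_PR.mp (mem_filter.mp hp).1).2.1.two_le
        _ ≤ f.natAbs := Nat.le_of_dvd (Int.natAbs_pos.mpr (hX f hf).1) hd1
    have hd3 : ((2 : ℝ) ^ D.card) ≤ (y : ℝ) ^ A := by
      have h1 : ((2 ^ D.card : ℕ) : ℝ) ≤ (f.natAbs : ℝ) := by exact_mod_cast hd2
      push_cast at h1
      rw [Nat.cast_natAbs, Int.cast_abs] at h1
      exact h1.trans (hX f hf).2
    have hd4 : (D.card : ℝ) * Real.log 2 ≤ A * Real.log y := by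
      have h1 := Real.log_le_log (by positivity) hd3
      rwa [Real.log_pow, Real.log_rpow hy0] at h1
    have hl2 : (1 / 2 : ℝ) ≤ Real.log 2 := by linarith [Real.log_two_gt_d9]
    have hd5 : (D.card : ℝ) ≤ K / 4 := by
      have h1 : (D.card : ℝ) * (1 / 2) ≤ A * Real.log y :=
        (mul_le_mul_of_nonneg_left hl2 (Nat.cast_nonneg _)).trans hd4
      have h2 : A * Real.log y ≤ A * ((1 / (8 * (A + 1))) * (y : ℝ) ^ (1 / 2 : ℝ)) :=
        mul_le_mul_of_nonneg_left hlog hA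
      have h3 : A * ((1 / (8 * (A + 1))) * (y : ℝ) ^ (1 / 2 : ℝ)) ≤ (y : ℝ) ^ (1 / 2 : ℝ) / 8 := by
        have h4 : A * (1 / (8 * (A + 1))) ≤ 1 / 8 := by
          rw [mul_one_div, div_le_div_iff₀ (by positivity) (by norm_num)]
          nlinarith
        have h5 : 0 ≤ (y : ℝ) ^ (1 / 2 : ℝ) := by positivity
        nlinarith
      linarith
    have hlow : ∀ p ∈ PR y, (1 : ℝ) - (if (p : ℤ) ∣ f then 2 else 0) ≤ (ps f p : ℝ) := by
      intro p hp
      split_ifs with h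
      · have := (abs_le.mp (ps_abs f p)).1
        have h' : ((-1 : ℤ) : ℝ) ≤ (ps f p : ℝ) := by exact_mod_cast this
        push_cast at h'
        linarith
      · rw [hps f hf p hp h]; norm_num
    have hs := sum_le_sum hlow
    rw [sum_sub_distrib, sum_const, nsmul_eq_mul, mul_one, ← sum_filter, sum_const,
      nsmul_eq_mul] at hs
    rw [← hKdef] at hs
    have hDc : (((PR y).filter fun p : ℕ => (p : ℤ) ∣ f).card : ℝ) = D.card := rfl
    rw [hDc] at hs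
    linarith
  have hmain := ineq B y (PR y) (fun p hp => (mem_PR.mp hp).2.1)
    (fun p hp => (mem_PR.mp hp).1.le) F ((y : ℝ) ^ A) (by positivity) hX hFF hfew
  rw [← hKdef] at hmain
  set R : ℝ := (F.card : ℝ) with hR
  by_cases hR0 : R = 0
  · rw [hR0]; positivity
  have hRpos : 0 < R := lt_of_le_of_ne (Nat.cast_nonneg _) (Ne.symm hR0)
  have hKB : 0 < K ^ B := by positivity
  -- divide
  have s1 : R ^ 2 * K ^ B ≤ c * (R * ((y : ℝ) ^ B + 1) + R ^ 2 * (4 * ((y : ℝ) ^ A) ^ 2)) := by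
    have h1 : (R * (K / 2) ^ B) ^ 2 = K ^ B * (R ^ 2 * K ^ B / 4 ^ B) := by
      rw [div_pow, show (4 : ℝ) = 2 * 2 by norm_num, mul_pow 2 2 B]; field_simp
    rw [h1] at hmain
    have h2 := le_of_mul_le_mul_left hmain hKB
    rw [div_le_iff₀ (by positivity)] at h2
    calc R ^ 2 * K ^ B ≤ _ := h2
      _ = _ := by rw [hc, mul_pow]; ring
  have s2 : (y : ℝ) ^ (2 * A + 1) ≤ K ^ B := by
    have h1 : (y : ℝ) ^ ((1 - δ) * B) ≤ K ^ B := by
      rw [Real.rpow_mul hy0.le, Real.rpow_natCast]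
      exact pow_le_pow_left₀ (by positivity) hK _
    refine (Real.rpow_le_rpow_of_exponent_le hyone ?_).trans h1
    nlinarith
  have s3 : c * (4 * ((y : ℝ) ^ A) ^ 2) ≤ K ^ B / 2 := by
    have h1 : (y : ℝ) ^ (2 * A + 1) = ((y : ℝ) ^ A) ^ 2 * y := by
      rw [Real.rpow_add hy0, Real.rpow_one, ← Real.rpow_natCast, ← Real.rpow_mul hy0.le]
      congr 2
      push_cast; ring
    rw [h1] at s2
    have h2 : 0 ≤ ((y : ℝ) ^ A) ^ 2 := by positivity
    nlinarith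
  have s4 : (y : ℝ) ^ B ≤ K ^ B * (y : ℝ) ^ (ε / 2) := by
    have h1 : (y : ℝ) ^ ((1 - δ) * B) ≤ K ^ B := by
      rw [Real.rpow_mul hy0.le, Real.rpow_natCast]
      exact pow_le_pow_left₀ (by positivity) hK _
    have h2 : (y : ℝ) ^ B = (y : ℝ) ^ ((1 - δ) * B) * (y : ℝ) ^ (δ * B) := by
      rw [← Real.rpow_add hy0, ← Real.rpow_natCast]; congr 1; ring
    rw [h2]
    apply mul_le_mul h1 _ (by positivity) hKB.le
    exact Real.rpow_le_rpow_of_exponent_le hyone hδε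
  have s5 : (y : ℝ) ^ B + 1 ≤ 2 * (y : ℝ) ^ B := by
    have : 1 ≤ (y : ℝ) ^ B := one_le_pow₀ hyone
    linarith
  have s6 : R * K ^ B ≤ 4 * c * (y : ℝ) ^ B := by
    have h1 : R ^ 2 * K ^ B ≤ c * (R * (2 * (y : ℝ) ^ B)) + R ^ 2 * (K ^ B / 2) := by
      have h2 : c * (R * ((y : ℝ) ^ B + 1)) ≤ c * (R * (2 * (y : ℝ) ^ B)) := by gcongr
      have h3 : c * (R ^ 2 * (4 * ((y : ℝ) ^ A) ^ 2)) ≤ R ^ 2 * (K ^ B / 2) := by
        have := mul_le_mul_of_nonneg_left s3 (sq_nonneg R)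
        calc c * (R ^ 2 * (4 * ((y : ℝ) ^ A) ^ 2)) = R ^ 2 * (c * (4 * ((y : ℝ) ^ A) ^ 2)) := by
              ring
          _ ≤ _ := this
      rw [mul_add] at s1
      linarith
    have h4 : R * (R * K ^ B) ≤ R * (4 * c * (y : ℝ) ^ B) := by nlinarith
    exact le_of_mul_le_mul_left h4 hRpos
  have s7 : R * K ^ B ≤ (4 * c * (y : ℝ) ^ (ε / 2)) * K ^ B := by
    calc R * K ^ B ≤ 4 * c * (y : ℝ) ^ B := s6
      _ ≤ 4 * c * (K ^ B * (y : ℝ) ^ (ε / 2)) := by gcongr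
      _ = _ := by ring
  have s8 := le_of_mul_le_mul_right s7 hKB
  calc R ≤ 4 * c * (y : ℝ) ^ (ε / 2) := s8
    _ ≤ (y : ℝ) ^ (ε / 2) * (y : ℝ) ^ (ε / 2) := by gcongr
    _ = (y : ℝ) ^ ε := by rw [← Real.rpow_add hy0]; congr 1; ring

end Pool.Agent.R852.LK
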