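import Pool.Agent.R852.LK.Core
import Pool.Agent.R852.BC.Fin

set_option autoImplicit false

open Finset Filter Topology

namespace Pool.Agent.R852.LK

open Pool.Agent.R920.CH Pool.Agent.R852.BC

lemma sqf (D : ℤ) (hD : D ≠ 0) : ∃ f s : ℤ, Squarefree f ∧ 0 < s ∧ D = f * s ^ 2 := by
  obtain ⟨f, s, hfs, hf⟩ := Nat.sq_mul_squarefree D.natAbs
  have hs0 : s ≠ 0 := by
    rintro rfl
    exact hD (Int.natAbs_eq_zero.mp (by rw [← hfs]; ring))
  refine ⟨D.sign * f, s, ?_, by exact_mod_cast Nat.pos_of_ne_zero hs0, ?_⟩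
  · rw [← Int.squarefree_natAbs, Int.natAbs_mul, Int.natAbs_sign_of_ne_zero hD, one_mul,
      Int.natAbs_natCast]
    exact hf
  · have h1 : ((s : ℤ)) ^ 2 * f = D.natAbs := by exact_mod_cast hfs
    calc D = D.sign * D.natAbs := (Int.sign_mul_natAbs D).symm
      _ = _ := by rw [← h1]; ring

lemma sq_prod (f g : ℤ) (hf : Squarefree f) (hg : Squarefree g) (h : IsSquare (f * g)) :
    f = g := by
  obtain ⟨t, ht⟩ := h
  have h1 : f ∣ t ^ 2 := ⟨g, by rw [sq, ← ht]⟩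
  have h2 : f ∣ t := (hf.dvd_pow_iff_dvd two_ne_zero).mp h1
  obtain ⟨u, rfl⟩ := h2
  have hf0 : f ≠ 0 := hf.ne_zero
  have h3 : g = f * (u * u) := by
    apply mul_left_cancel₀ hf0
    rw [ht]; ring
  have h4 : IsUnit u := hg u ⟨f, by rw [h3]; ring⟩
  rcases Int.isUnit_iff.mp h4 with rfl | rfl
  · rw [h3]; ring
  · rw [h3]; ring

lemma ps_one_of (D : ℤ) (p : ℕ) (hp : p.Prime) (hp2 : p ≠ 2) (h : ¬ (p : ℤ) ∣ D)
    (ht : ∃ t : ℤ, (p : ℤ) ∣ D - t ^ 2) : ps D p = 1 := by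
  have : Fact p.Prime := ⟨hp⟩
  obtain ⟨t, ht⟩ := ht
  unfold ps
  rw [if_pos (hp.odd_of_ne_two hp2), ← jacobiSym.legendreSym.to_jacobiSym]
  have h0 : (D : ZMod p) ≠ 0 := fun h' => h ((ZMod.intCast_zmod_eq_zero_iff_dvd D p).mp h')
  rw [legendreSym.eq_one_iff p h0]
  refine ⟨(t : ZMod p), ?_⟩
  have := (ZMod.intCast_zmod_eq_zero_iff_dvd (D - t ^ 2) p).mpr ht
  push_cast at this
  linear_combination this

/-- the discriminants -/
def IsDisc (n : ℕ) (D : ℤ) : Prop :=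
  ∃ c₁ c₂ : ℤ, RiemannRoch n (poly2 c₁ c₂) ∧ c₁ ^ 2 - 4 * c₂ = D

lemma fib (X : ℝ) (f : ℤ) (hf : f ≠ 0) (S : Finset ℤ) (σ : ℤ → ℤ)
    (hS : ∀ D ∈ S, |(D : ℝ)| ≤ X ∧ 0 < σ D ∧ D = f * σ D ^ 2) :
    (S.card : ℝ) ≤ √X / √|(f : ℝ)| := by
  have hf0 : 0 < |(f : ℝ)| := by positivity
  have hmap : ∀ D ∈ S, (σ D).toNat ∈ Icc 1 ⌊√X / √|(f : ℝ)|⌋₊ := by
    intro D hD
    obtain ⟨h1, h2, h3⟩ := hS D hD
    rw [Finset.mem_Icc]
    constructor
    · omega
    · apply Nat.le_floor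
      have h4 : (((σ D).toNat : ℕ) : ℝ) = (σ D : ℝ) := by
        have : (((σ D).toNat : ℕ) : ℤ) = σ D := Int.toNat_of_nonneg h2.le
        exact_mod_cast this
      rw [h4, le_div_iff₀ (Real.sqrt_pos.mpr hf0)]
      have h5 : |(D : ℝ)| = |(f : ℝ)| * (σ D : ℝ) ^ 2 := by
        conv_lhs => rw [h3]
        push_cast
        rw [abs_mul, abs_of_nonneg (sq_nonneg (σ D : ℝ))]
      have h6 : (0 : ℝ) ≤ (σ D : ℝ) := by exact_mod_cast h2.le
      rw [show (σ D : ℝ) * √|(f : ℝ)| = √(|(f : ℝ)| * (σ D : ℝ) ^ 2) by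
        rw [Real.sqrt_mul hf0.le, Real.sqrt_sq h6, mul_comm]]
      exact Real.sqrt_le_sqrt (h5 ▸ h1)
  have hinj : Set.InjOn (fun D => (σ D).toNat) (S : Set ℤ) := by
    intro D hD E hE hDE
    have h1 := hS D hD
    have h2 := hS E hE
    have h3 : σ D = σ E := by
      have : (σ D).toNat = (σ E).toNat := hDE
      omega
    rw [h1.2.2, h2.2.2, h3]
  have h1 := Finset.card_le_card_of_injOn _ hmap hinj
  rw [Nat.card_Icc, Nat.add_sub_cancel] at h1
  calc (S.card : ℝ) ≤ (⌊√X / √|(f : ℝ)|⌋₊ : ℝ) := by exact_mod_cast h1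
    _ ≤ _ := Nat.floor_le (by positivity)

/-- **Few exceptional discriminants.** -/
theorem count (A ε : ℝ) (hε : 0 < ε) : ∀ᶠ n : ℕ in atTop, ∀ X : ℝ, 0 ≤ X → X ≤ (n : ℝ) ^ A →
    ∀ S : Finset ℤ, (∀ D ∈ S, |(D : ℝ)| ≤ X ∧ ¬ IsSquare D ∧ IsDisc n D) →
      (S.card : ℝ) ≤ √X / (n : ℝ) ^ (2 * Real.exp (1 / 2) - ε) := by
  classical
  filter_upwards [core (max A 0) (ε / 2) (le_max_right _ _) (by positivity), rank_two A ε hε,
    eventually_ge_atTop 1] with n hcore hrank hn1 X hX0 hXA S hS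
  have hn0 : (0 : ℝ) < n := by exact_mod_cast hn1
  have hnone : (1 : ℝ) ≤ n := by exact_mod_cast hn1
  have hne : ∀ D ∈ S, D ≠ 0 := by
    rintro D hD rfl
    exact (hS 0 hD).2.1 ⟨0, by ring⟩
  choose! κ σ h1 h2 h3 using sqf
  -- representatives
  have hrep : ∀ f ∈ S.image κ, ∃ D ∈ S, κ D = f := fun f hf => Finset.mem_image.mp hf
  choose! ρ hρ1 hρ2 using hrep
  have hcard : (((S.image κ).card : ℕ) : ℝ) ≤ (n : ℝ) ^ (ε / 2) := by
    have hinj : Set.InjOn ρ ((S.image κ : Finset ℤ) : Set ℤ) := by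
      intro f hf g hg hfg
      rw [← hρ2 f hf, ← hρ2 g hg, hfg]
    rw [← card_image_of_injOn hinj]
    apply hcore
    · intro D hD
      obtain ⟨f, hf, rfl⟩ := Finset.mem_image.mp hD
      refine ⟨hne _ (hρ1 f hf), ?_⟩
      exact ((hS _ (hρ1 f hf)).1.trans hXA).trans
        (Real.rpow_le_rpow_of_exponent_le hnone (le_max_left _ _))
    · intro D hD E hE hDE hsq
      obtain ⟨f, hf, rfl⟩ := Finset.mem_image.mp hD
      obtain ⟨g, hg, rfl⟩ := Finset.mem_image.mp hE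
      apply hDE
      have hDn := hne _ (hρ1 f hf)
      have hEn := hne _ (hρ1 g hg)
      have hfg : f = g := by
        apply sq_prod f g
        · rw [← hρ2 f hf]; exact h1 _ hDn
        · rw [← hρ2 g hg]; exact h1 _ hEn
        · have e1 := h3 _ hDn
          have e2 := h3 _ hEn
          rw [hρ2 f hf] at e1
          rw [hρ2 g hg] at e2
          rw [e1, e2] at hsq
          have e3 : f * σ (ρ f) ^ 2 * (g * σ (ρ g) ^ 2) =
              (f * g) * (σ (ρ f) * σ (ρ g)) ^ 2 := by ring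
          rw [e3] at hsq
          have hnz : σ (ρ f) * σ (ρ g) ≠ 0 :=
            mul_ne_zero (h2 _ hDn).ne' (h2 _ hEn).ne'
          obtain ⟨t, ht⟩ := hsq
          have hdvd : (σ (ρ f) * σ (ρ g)) ^ 2 ∣ t ^ 2 := ⟨f * g, by rw [sq t, ← ht]; ring⟩
          obtain ⟨u, hu⟩ := (Int.pow_dvd_pow_iff two_ne_zero).mp hdvd
          refine ⟨u, ?_⟩
          apply mul_right_cancel₀ (pow_ne_zero 2 hnz)
          rw [ht, hu]; ring
      rw [hfg]
    · intro D hD p hp hpD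
      obtain ⟨f, hf, rfl⟩ := Finset.mem_image.mp hD
      obtain ⟨c₁, c₂, hRR, hc⟩ := (hS _ (hρ1 f hf)).2.2
      obtain ⟨hp1, hp2, hp3⟩ := mem_PR.mp hp
      apply ps_one_of _ p hp2 hp3 hpD
      rw [← hc]
      exact square_mod hRR p hp2 hp3 (by omega)
  have hfib : ∀ f ∈ S.image κ, ((S.filter fun D => κ D = f).card : ℝ) ≤
      √X / (n : ℝ) ^ (2 * Real.exp (1 / 2) - ε / 2) := by
    intro f hf
    have hD := hρ1 f hf
    have hDn := hne _ hD
    have hfsq : Squarefree f := by rw [← hρ2 f hf]; exact h1 _ hDn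
    have hf0 : f ≠ 0 := hfsq.ne_zero
    have hlarge : (n : ℝ) ^ (4 * Real.exp (1 / 2) - ε) ≤ |(f : ℝ)| := by
      by_contra hcon
      push Not at hcon
      obtain ⟨hX, hns, c₁, c₂, hRR, hc⟩ := hS _ hD
      have e1 := h3 _ hDn
      rw [hρ2 f hf] at e1
      obtain ⟨a, b, ha, hb⟩ := hrank c₁ c₂ f (σ (ρ f)) hRR (by rw [hc]; exact e1)
        (by rw [hc]; push_cast; exact hX.trans hXA) (by push_cast; exact hcon.le)
      apply hns
      refine ⟨a - b, ?_⟩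
      rw [← hc, ha, hb]; ring
    have hb := fib X f hf0 (S.filter fun D => κ D = f) σ (by
      intro D hD'
      rw [Finset.mem_filter] at hD'
      refine ⟨(hS D hD'.1).1, h2 D (hne D hD'.1), ?_⟩
      have := h3 D (hne D hD'.1)
      rwa [hD'.2] at this)
    refine hb.trans ?_
    apply div_le_div_of_nonneg_left (Real.sqrt_nonneg _) (by positivity)
    have e : (n : ℝ) ^ (2 * Real.exp (1 / 2) - ε / 2) =
        √((n : ℝ) ^ (4 * Real.exp (1 / 2) - ε)) := by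
      rw [Real.sqrt_eq_rpow, ← Real.rpow_mul hn0.le]; congr 1; ring
    rw [e]
    exact Real.sqrt_le_sqrt hlarge
  have hsum : (S.card : ℝ) = ∑ f ∈ S.image κ, ((S.filter fun D => κ D = f).card : ℝ) := by
    have := Finset.card_eq_sum_card_image κ S
    exact_mod_cast this
  rw [hsum]
  calc ∑ f ∈ S.image κ, ((S.filter fun D => κ D = f).card : ℝ)
      ≤ ∑ _f ∈ S.image κ, √X / (n : ℝ) ^ (2 * Real.exp (1 / 2) - ε / 2) := sum_le_sum hfib
    _ = ((S.image κ).card : ℝ) * (√X / (n : ℝ) ^ (2 * Real.exp (1 / 2) - ε / 2)) := by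
        rw [sum_const, nsmul_eq_mul]
    _ ≤ (n : ℝ) ^ (ε / 2) * (√X / (n : ℝ) ^ (2 * Real.exp (1 / 2) - ε / 2)) :=
        mul_le_mul_of_nonneg_right hcard (by positivity)
    _ = √X / (n : ℝ) ^ (2 * Real.exp (1 / 2) - ε) := by
        have e : (n : ℝ) ^ (2 * Real.exp (1 / 2) - ε / 2) =
            (n : ℝ) ^ (2 * Real.exp (1 / 2) - ε) * (n : ℝ) ^ (ε / 2) := by
          rw [← Real.rpow_add hn0]; congr 1; ring
        rw [e]
        have : (n : ℝ) ^ (ε / 2) ≠ 0 := (Real.rpow_pos_of_pos hn0 _).ne'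
        have h' : (n : ℝ) ^ (2 * Real.exp (1 / 2) - ε) ≠ 0 := (Real.rpow_pos_of_pos hn0 _).ne'
        field_simp

end Pool.Agent.R852.LK
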