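import Pool.Agent.R852.BC.Char

set_option autoImplicit false

open Finset

namespace Pool.Agent.R852.LK

open Pool.Agent.R852.BC Pool.Agent.H471R4.BW

/-- Jacobi symbol `(D | m)` for odd `m`, zero for even `m`. -/
def ps (D : ℤ) (m : ℕ) : ℤ := if Odd m then jacobiSym D m else 0

lemma ps_mul (D : ℤ) (a b : ℕ) : ps D (a * b) = ps D a * ps D b := by
  unfold ps
  by_cases ha : Odd a
  · by_cases hb : Odd b
    · rw [if_pos (ha.mul hb), if_pos ha, if_pos hb,
        jacobiSym.mul_right' _ (by rintro rfl; simp at ha) (by rintro rfl; simp at hb)]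
    · rw [if_neg hb, mul_zero, if_neg]
      rw [Nat.odd_mul]; tauto
  · rw [if_neg ha, zero_mul, if_neg]
    rw [Nat.odd_mul]; tauto

lemma ps_one (D : ℤ) : ps D 1 = 1 := by
  unfold ps
  rw [if_pos odd_one, jacobiSym.one_right]

lemma ps_prod {ι : Type*} (s : Finset ι) (g : ι → ℕ) (D : ℤ) :
    ps D (∏ i ∈ s, g i) = ∏ i ∈ s, ps D (g i) := by
  classical
  induction s using Finset.induction_on with
  | empty => rw [prod_empty, prod_empty, ps_one]
  | insert a s ha ih => rw [prod_insert ha, prod_insert ha, ps_mul, ih]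

lemma ps_left (D E : ℤ) (m : ℕ) : ps (D * E) m = ps D m * ps E m := by
  unfold ps
  split_ifs
  · exact jacobiSym.mul_left D E m
  · simp

lemma ps_abs (D : ℤ) (m : ℕ) : |ps D m| ≤ 1 := by
  unfold ps
  split_ifs
  · rcases jacobiSym.trichotomy D m with h | h | h <;> rw [h] <;> simp
  · simp

lemma ps_mod (D : ℤ) (m : ℕ) : ps D (m % (4 * D.natAbs)) = ps D m := by
  have h2 : m % (4 * D.natAbs) % 2 = m % 2 :=
    Nat.mod_mod_of_dvd m ⟨2 * D.natAbs, by ring⟩
  unfold ps
  by_cases h : Odd m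
  · have h' : Odd (m % (4 * D.natAbs)) := by
      rw [Nat.odd_iff] at h ⊢; omega
    rw [if_pos h, if_pos h', ← jacobiSym.mod_right D h]
  · have h' : ¬ Odd (m % (4 * D.natAbs)) := by
      rw [Nat.odd_iff] at h ⊢; omega
    rw [if_neg h, if_neg h']

lemma exists_neg (D : ℤ) (hD0 : D ≠ 0) (hD : ¬ IsSquare D) :
    ∃ l : ℕ, Odd l ∧ jacobiSym D l = -1 := by
  by_contra hcon
  push Not at hcon
  obtain ⟨N, θ, hN0, hodd, hsq, hdvd, hθ, H⟩ := exists_char D hD0 hD
  haveI : NeZero N := ⟨hN0⟩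
  apply chi_ne_one N hodd hsq θ hθ
  apply MulChar.ext
  intro a
  rw [MulChar.one_apply_coe]
  obtain ⟨l, hl1, hl2, hl3⟩ := Nat.forall_exists_prime_gt_and_eq_mod (a := (a : ZMod (8 * N)))
    a.isUnit (D.natAbs + 2)
  have hl2' : l ≠ 2 := by omega
  have hlo : Odd l := hl2.odd_of_ne_two hl2'
  have hlD : ¬ (l : ℤ) ∣ D := by
    intro h
    have h1 : l ∣ D.natAbs := Int.natCast_dvd.mp h
    have := Nat.le_of_dvd (Int.natAbs_pos.mpr hD0) h1
    omega
  haveI : Fact l.Prime := ⟨hl2⟩
  have hsq2 : ∃ t : ℤ, (l : ℤ) ∣ D - t ^ 2 := by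
    have h1 := hcon l hlo
    rw [← jacobiSym.legendreSym.to_jacobiSym] at h1
    have h0 : (D : ZMod l) ≠ 0 := by
      intro h
      exact hlD ((ZMod.intCast_zmod_eq_zero_iff_dvd D l).mp h)
    have h2 : legendreSym l D = 1 := by
      rcases legendreSym.eq_one_or_neg_one l h0 with h | h
      · exact h
      · exact absurd h h1
    rw [legendreSym.eq_one_iff l h0] at h2
    obtain ⟨r, hr⟩ := h2
    refine ⟨(r.val : ℤ), ?_⟩
    rw [← ZMod.intCast_zmod_eq_zero_iff_dvd]
    push_cast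
    rw [ZMod.natCast_zmod_val, hr]
    ring
  have h3 := H l hl2 hl2' hlD hsq2
  rw [← hl3, chi_nat, psi_apply, jchar_apply]
  exact_mod_cast h3

lemma sum_period (D : ℤ) (hD0 : D ≠ 0) (hD : ¬ IsSquare D) :
    ∑ m ∈ range (4 * D.natAbs), ps D m = 0 := by
  obtain ⟨b, hb1, hb2⟩ := exists_neg D hD0 hD
  set P := 4 * D.natAbs with hP
  have hP0 : 0 < P := Nat.mul_pos (by norm_num) (Int.natAbs_pos.mpr hD0)
  have hco : Nat.Coprime P b := by
    have h1 : Int.gcd D b = 1 := by
      by_contra h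
      have hb0 : b ≠ 0 := by rintro rfl; simp at hb1
      have : NeZero b := ⟨hb0⟩
      have := (jacobiSym.eq_zero_iff_not_coprime (a := D) (b := b)).mpr h
      omega
    have h2 : Nat.Coprime D.natAbs b := by
      have h3 : Int.gcd D b = Nat.gcd D.natAbs b := rfl
      rw [h3] at h1
      exact h1
    have h4 : Nat.Coprime 4 b := by
      have : Nat.Coprime (2 ^ 2) b := Nat.Coprime.pow_left 2 (Nat.coprime_two_left.mpr hb1)
      simpa using this
    exact Nat.Coprime.mul_left h4 h2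
  have hinj : Set.InjOn (fun m => (b * m) % P) (range P : Finset ℕ) := by
    intro x hx y hy hxy
    simp only [coe_range, Set.mem_Iio] at hx hy
    have h1 : b * x ≡ b * y [MOD P] := hxy
    have h2 : x ≡ y [MOD P] := Nat.ModEq.cancel_left_of_coprime hco h1
    exact Nat.ModEq.eq_of_lt_of_lt h2 hx hy
  have himg : (range P).image (fun m => (b * m) % P) = range P := by
    apply eq_of_subset_of_card_le
    · intro x hx
      rw [mem_image] at hx
      obtain ⟨m, _, rfl⟩ := hx
      exact mem_range.mpr (Nat.mod_lt _ hP0)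
    · rw [card_image_of_injOn hinj]
  have h1 : ∑ m ∈ range P, ps D m = ∑ m ∈ range P, ps D ((b * m) % P) := by
    conv_lhs => rw [← himg]
    rw [sum_image hinj]
  have h2 : ∑ m ∈ range P, ps D ((b * m) % P) = - ∑ m ∈ range P, ps D m := by
    rw [← sum_neg_distrib]
    refine sum_congr rfl fun m _ => ?_
    rw [hP, ps_mod, ps_mul]
    have : ps D b = -1 := by unfold ps; rw [if_pos hb1, hb2]
    rw [this]; ring
  omega

lemma sum_bound (D : ℤ) (hD0 : D ≠ 0) (hD : ¬ IsSquare D) (M : ℕ) :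
    |∑ m ∈ range M, ps D m| ≤ 4 * |D| := by
  have hP0 : 0 < 4 * D.natAbs := Nat.mul_pos (by norm_num) (Int.natAbs_pos.mpr hD0)
  have hcast : ((4 * D.natAbs : ℕ) : ℤ) = 4 * |D| := by
    push_cast; ring
  induction M using Nat.strong_induction_on with
  | _ M ih =>
    by_cases h : M ≤ 4 * D.natAbs
    · refine (abs_sum_le_sum_abs _ _).trans ?_
      refine (sum_le_sum fun m _ => ps_abs D m).trans ?_
      rw [sum_const, card_range, ← hcast]
      simp only [smul_eq_mul, nsmul_eq_mul, mul_one]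
      exact_mod_cast h
    · push Not at h
      obtain ⟨k, rfl⟩ := Nat.exists_eq_add_of_lt h
      have h1 : ∑ m ∈ range (4 * D.natAbs + k + 1), ps D m =
          ∑ m ∈ range (4 * D.natAbs), ps D m + ∑ m ∈ range (k + 1), ps D m := by
        rw [add_assoc, sum_range_add]
        congr 1
        refine sum_congr rfl fun m _ => ?_
        rw [← ps_mod D (4 * D.natAbs + m), Nat.add_mod_left, ps_mod]
      rw [h1, sum_period D hD0 hD, zero_add]
      exact ih (k + 1) (by omega)

end Pool.Agent.R852.LK
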